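import Pool.Agent.W187.UR.Stm2
import Pool.Agent.W187.UR.Main

/-! The rotated means when there are no real zeros: every angle. -/

set_option autoImplicit false

namespace Pool.Agent.W371.UR

open Complex MeasureTheory Filter Topology Set
open scoped Interval
open Pool.Agent.W189.ML Pool.Agent.W189.LC Pool.Agent.W187.UR

set_option maxHeartbeats 1000000 in
theorem full : S_FULL := by
  intro ι _ lam c G D γ hγ m Q hQ hQp hQ2 hΦ hcont
  obtain ⟨CG, hCG⟩ := D.Gb
  have hpi := Real.pi_pos
  have hpi3 := Real.pi_gt_three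
  have hpi4 := Real.pi_lt_four
  obtain ⟨δ, hδ, hbr⟩ := branch (L := fun w => G w - ser lam c w) (m := m) (Q := Q)
    ((D.Gd 2 (by simp)).continuousAt.sub hcont)
    (by rw [Complex.sub_im, SData.ser_two lam c, D.G2, sub_zero]) (by
      have := hQ 2 ⟨by norm_num, le_rfl⟩; simpa using this) (by
      have := hQp 2 ⟨by norm_num, le_rfl⟩; simpa using this) hQ2 hΦ
  obtain ⟨δ₂, hδ₂, M, hM0, hM⟩ := rect hQ hQp
  set a : ℝ := 1 + γ with ha
  have ha1 : 1 ≤ a := by rw [ha]; linarith
  set S2 : ℝ := ∑' i, |c i| * Real.exp (-(2 * lam i)) with hS2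
  have hS20 : 0 ≤ S2 := tsum_nonneg fun i => by positivity
  set A : ℝ := |CG| + (‖log (Q 0)‖ + M * 5) + 7 * |(m : ℝ)| with hA
  have hA0 : 0 ≤ A := by positivity
  have hq1 : 0 < (Real.pi + γ) / δ := by positivity
  have hq2 : 0 < (Real.pi + γ) / δ₂ := by positivity
  refine ⟨Real.exp (Real.exp a) * (A * a) + A + S2,
    (Real.pi + γ) / δ + (Real.pi + γ) / δ₂ + a + 1, fun T hT => ?_⟩
  have hT1 : 1 ≤ T := by linarith
  have hTa : a ≤ T := by linarith
  have hT0 : 0 < T := by linarith
  have hTδ : (Real.pi + γ) / T < δ := by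
    rw [div_lt_iff₀ hT0, mul_comm, ← div_lt_iff₀ hδ]; linarith
  have hTδ₂ : (Real.pi + γ) / T ≤ δ₂ := by
    rw [div_le_iff₀ hT0, mul_comm, ← div_le_iff₀ hδ₂]; linarith
  set b : ℝ := 2 * T with hb
  have hab : a ≤ b := by linarith
  have hb0 : 0 ≤ b := by linarith
  have hTc : (T : ℂ) ≠ 0 := by exact_mod_cast hT0.ne'
  set w : ℂ → ℂ := fun z => (z - γ * I) / T with hw
  have hwre : ∀ z : ℂ, (w z).re = z.re / T := fun z => by rw [hw]; simp
  have hwim : ∀ z : ℂ, (w z).im = (z.im - γ) / T := fun z => by rw [hw]; simp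
  have hwd : Differentiable ℂ w := by rw [hw]; fun_prop
  -- the contour integral
  obtain ⟨E1, E2⟩ := cmean_eq (γ := γ) D hT1 hb.symm.le
  have hre2 : ∀ z ∈ HS b, 2 ≤ (w z).re := by
    intro z hz
    rw [hwre, le_div_iff₀ hT0]
    exact hz.1
  have hsb : ∀ z ∈ HS b, ‖ser lam c (w z)‖ ≤ S2 := fun z hz => D.ser_le (hre2 z hz)
  have E3 : ‖∫ x in Ioi b, rho (fun z => ser lam c (w z)) x‖ ≤ S2 := by
    have := norm_rays_le (Φ := fun z => ser lam c (w z)) hb0 hS20 le_rfl (s := Ioi b)
      (fun x hx => by have := hsb _ (up_mem (le_of_lt hx)); linarith)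
      (fun x hx => by have := hsb _ (down_mem (le_of_lt hx)); linarith) subset_rfl measurableSet_Ioi
    linarith
  -- the integrand
  set Ψ : ℂ → ℂ := fun z => G (w z) - log (Q (w z)) - m * log (z - γ * I) with hΨ
  have hlogw : ∀ z : ℂ, 0 < z.re → log (w z) = log (z - γ * I) - Real.log T := by
    intro z hz
    have h1 : w z = ((T⁻¹ : ℝ) : ℂ) * (z - γ * I) := by
      rw [hw]
      push_cast
      field_simp
    have h2 : z - γ * I ≠ 0 := by
      intro h
      have := congrArg Complex.re h
      simp at this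
      linarith
    rw [h1, Complex.log_ofReal_mul (by positivity) h2, Real.log_inv]
    push_cast
    ring
  have hser : ∀ y ∈ Icc (-Real.pi) Real.pi, ser lam c (w (b + y * I)) =
      Ψ (b + y * I) + m * Real.log T := by
    intro y hy
    have h3 : dist (w (b + y * I)) 2 < δ := by
      rw [Complex.dist_eq]
      have : w ((b : ℂ) + y * I) - 2 = (((y - γ) / T : ℝ) : ℂ) * I := by
        rw [hw, hb]
        push_cast
        field_simp
        ring
      rw [this, norm_mul, Complex.norm_I, mul_one, Complex.norm_real, Real.norm_eq_abs, abs_div,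
        abs_of_pos hT0]
      refine (div_le_div_of_nonneg_right ?_ hT0.le).trans_lt hTδ
      rw [abs_le]; constructor <;> linarith [hy.1, hy.2]
    have h5 := hbr _ h3
    have h6 := hlogw (b + y * I) (by simp; linarith)
    rw [hΨ]
    simp only
    rw [h6] at h5
    linear_combination -h5
  -- bounds and differentiability on the rectangle
  have hrect : ∀ z : ℂ, a ≤ z.re → z.re ≤ b → -Real.pi ≤ z.im → z.im ≤ Real.pi →
      DifferentiableAt ℂ Ψ z ∧ ‖Ψ z‖ ≤ A * z.re := by
    intro z h1 h2 h3 h4
    have hz0 : 0 < z.re := by linarith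
    have hz1 : 1 ≤ z.re := by linarith
    have h5 : 0 < (w z).re := by rw [hwre]; positivity
    have h6 : (w z).re ≤ 2 := by
      rw [hwre, div_le_iff₀ hT0]; exact h2
    have h7 : |(w z).im| ≤ δ₂ := by
      rw [hwim, abs_div, abs_of_pos hT0]
      refine (div_le_div_of_nonneg_right ?_ hT0.le).trans hTδ₂
      rw [abs_le]; constructor <;> linarith
    have hzn : ‖z - γ * I‖ ≤ 5 * z.re := by
      have e1 := Complex.norm_le_abs_re_add_abs_im (z - γ * I)
      have e2 : (z - γ * I).re = z.re := by simp
      have e3 : (z - γ * I).im = z.im - γ := by simp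
      rw [e2, e3, abs_of_pos hz0] at e1
      have e4 : |z.im - γ| ≤ Real.pi + γ := by
        rw [abs_le]; constructor <;> linarith
      have e5 : Real.pi + γ ≤ 4 * z.re := by
        have : a = 1 + γ := ha
        nlinarith
      linarith
    have hwn : ‖w z‖ ≤ 5 * z.re / T := by
      rw [hw]
      simp only
      rw [norm_div, Complex.norm_real, Real.norm_eq_abs, abs_of_pos hT0]
      exact div_le_div_of_nonneg_right hzn hT0.le
    obtain ⟨q1, q2⟩ := hM (w z) h5.le h6 h7
    constructor
    · have d1 : DifferentiableAt ℂ (fun z => G (w z)) z :=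
        DifferentiableAt.comp (g := G) (f := w) z (D.Gd _ h5) (hwd z)
      have d2 : DifferentiableAt ℂ (fun z => log (Q (w z))) z :=
        DifferentiableAt.comp (g := fun w => log (Q w)) (f := w) z q2 (hwd z)
      have d4 : DifferentiableAt ℂ (fun z : ℂ => log (z - γ * I)) z := by
        refine DifferentiableAt.clog (by fun_prop) (Or.inl ?_)
        simpa using hz0
      rw [hΨ]
      exact (d1.sub d2).sub (d4.const_mul _)
    · have e1 : ‖G (w z)‖ ≤ |CG| * z.re := by
        have h9 : ‖w z‖ ≤ 5 * (w z).re := by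
          refine hwn.trans (le_of_eq ?_)
          rw [hwre]; ring
        have h10 := (hCG _ h5 h9).trans (le_abs_self _)
        calc ‖G (w z)‖ ≤ |CG| * 1 := by linarith
          _ ≤ |CG| * z.re := by gcongr
      have e2 : ‖log (Q (w z))‖ ≤ (‖log (Q 0)‖ + M * 5) * z.re := by
        have h9 : ‖log (Q (w z))‖ ≤ ‖log (Q 0)‖ + M * ‖w z‖ := by
          calc ‖log (Q (w z))‖ = ‖log (Q 0) + (log (Q (w z)) - log (Q 0))‖ := by
                congr 1; ring
            _ ≤ _ := norm_add_le _ _
            _ ≤ _ := by gcongr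
        have h10 : ‖w z‖ ≤ 5 * z.re := by
          refine hwn.trans ?_
          rw [div_le_iff₀ hT0]
          nlinarith
        calc ‖log (Q (w z))‖ ≤ ‖log (Q 0)‖ + M * ‖w z‖ := h9
          _ ≤ ‖log (Q 0)‖ * z.re + M * (5 * z.re) := by
              refine add_le_add ?_ (mul_le_mul_of_nonneg_left h10 hM0)
              exact le_mul_of_one_le_right (norm_nonneg _) hz1
          _ = _ := by ring
      have e3 : ‖(m : ℂ) * log (z - γ * I)‖ ≤ 7 * |(m : ℝ)| * z.re := by
        rw [norm_mul, Complex.norm_intCast]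
        have h9 := norm_log_le (z := z - γ * I) (by simpa using hz1)
        have h10 : ‖log (z - γ * I)‖ ≤ 7 * z.re := by linarith
        calc |(m : ℝ)| * ‖log (z - γ * I)‖ ≤ |(m : ℝ)| * (7 * z.re) := by gcongr
          _ = _ := by ring
      rw [hΨ]
      simp only
      calc ‖G (w z) - log (Q (w z)) - m * log (z - γ * I)‖ ≤
          ‖G (w z)‖ + ‖log (Q (w z))‖ + ‖(m : ℂ) * log (z - γ * I)‖ :=
            (norm_sub_le _ _).trans (add_le_add (norm_sub_le _ _) le_rfl)
        _ ≤ |CG| * z.re + (‖log (Q 0)‖ + M * 5) * z.re + 7 * |(m : ℝ)| * z.re :=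
            add_le_add (add_le_add e1 e2) e3
        _ = A * z.re := by rw [hA]; ring
  have hrect' : ∀ z ∈ [[a, b]] ×ℂ [[-Real.pi, Real.pi]],
      DifferentiableAt ℂ Ψ z ∧ ‖Ψ z‖ ≤ A * z.re := by
    intro z hz
    rw [mem_reProdIm, uIcc_of_le hab, uIcc_of_le (by linarith)] at hz
    exact hrect z hz.1.1 hz.1.2 hz.2.1 hz.2.2
  have hdiff : DifferentiableOn ℂ Ψ ([[a, b]] ×ℂ [[-Real.pi, Real.pi]]) := fun z hz =>
    (hrect' z hz).1.differentiableWithinAt
  have E6 : V b Ψ = V a Ψ + ∫ x in a..b, rho Ψ x := V_shift hdiff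
  have E7 : ‖V a Ψ‖ ≤ Real.exp (Real.exp a) * (A * a) := by
    refine norm_V_le fun y hy => ?_
    have := (hrect (a + y * I) (by simp) (by simpa using hab)
      (by simpa using (abs_le.1 hy).1) (by simpa using (abs_le.1 hy).2)).2
    have h3 : ((a : ℂ) + y * I).re = a := by simp
    rwa [h3] at this
  have E8 : ‖∫ x in a..b, rho Ψ x‖ ≤ A := by
    rw [intervalIntegral.integral_of_le hab]
    have := norm_rays_le (Φ := Ψ) (a := a) (by linarith) le_rfl hA0 (s := Ioc a b)
      (fun x hx => by
        have := (hrect (x + Real.pi * I) (by simpa using hx.1.le) (by simpa using hx.2)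
          (by simp; linarith) (by simp)).2
        rw [zero_add]
        simpa using this)
      (fun x hx => by
        have := (hrect (x - Real.pi * I) (by simpa using hx.1.le) (by simpa using hx.2)
          (by simp) (by simp; linarith)).2
        rw [zero_add]
        simpa using this) Ioc_subset_Ioi_self measurableSet_Ioc
    rwa [zero_add] at this
  have E9 : V b (fun z => ser lam c (w z)) = V b Ψ + m * Real.log T := by
    have hpp : -Real.pi ≤ Real.pi := by linarith
    have i1 : IntervalIntegrable (fun y : ℝ => K (b + y * I) * Ψ (b + y * I)) volume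
        (-Real.pi) Real.pi := by
      refine ContinuousOn.intervalIntegrable ?_
      refine ContinuousOn.mul (continuous_K.comp (by fun_prop)).continuousOn ?_
      refine hdiff.continuousOn.comp (by fun_prop) ?_
      intro y hy
      rw [uIcc_of_le hpp] at hy
      rw [mem_reProdIm, uIcc_of_le hab, uIcc_of_le hpp]
      refine ⟨?_, ?_⟩
      · simpa using hab
      · simpa using hy
    have i2 : IntervalIntegrable (fun y : ℝ => K (b + y * I) * (m * Real.log T : ℂ)) volume
        (-Real.pi) Real.pi := by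
      refine Continuous.intervalIntegrable ?_ _ _
      exact (continuous_K.comp (by fun_prop)).mul continuous_const
    have h1 := V_one b (m * Real.log T : ℂ)
    rw [← h1]
    unfold V
    rw [← mul_add, ← intervalIntegral.integral_add i1 i2]
    congr 1
    refine intervalIntegral.integral_congr fun y hy => ?_
    rw [uIcc_of_le hpp] at hy
    simp only [hser y hy]
    ring
  have hfin : cmean lam c γ T - m * Real.log T = V a Ψ + (∫ x in a..b, rho Ψ x) +
      ∫ x in Ioi b, rho (fun z => ser lam c (w z)) x := by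
    rw [← E1]
    unfold J
    have h1 : V b (fun z => ser lam c ((z - γ * I) / T)) = V b (fun z => ser lam c (w z)) := rfl
    have h2 : (∫ x in Ioi b, rho (fun z => ser lam c ((z - γ * I) / T)) x) =
      ∫ x in Ioi b, rho (fun z => ser lam c (w z)) x := rfl
    rw [h1, h2, E9, E6]
    ring
  have F4 : ‖cmean lam c γ T - m * Real.log T‖ ≤ Real.exp (Real.exp a) * (A * a) + A + S2 := by
    rw [hfin]
    refine (norm_add_le _ _).trans (add_le_add ?_ E3)
    exact (norm_add_le _ _).trans (add_le_add E7 E8)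
  have F5 : rmean lam c γ T - m * Real.log T = (cmean lam c γ T - m * Real.log T).re := by
    rw [Complex.sub_re, E2]
    congr 1
    have : (m : ℂ) * (Real.log T : ℂ) = ((m * Real.log T : ℝ) : ℂ) := by push_cast; rfl
    rw [this, Complex.ofReal_re]
  rw [F5]
  exact (Complex.abs_re_le_norm _).trans F4

end Pool.Agent.W371.UR
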